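import Pool.Agent.Helper39.Rot.Step

set_option autoImplicit false

namespace Pool.Agent.Helper39.Rot

open Equiv

/-- statement of module C -/
def InfComp : Prop := ∀ (Y : ℕ → ℂ → ℂ) (y : ℕ → ℝ → ℝ)
    (_ : ∀ k, DifferentiableOn ℂ (Y k) {z | |z.im| < 2})
    (_ : ∀ k z, |z.im| < 2 → ‖Y k z - z‖ ≤ (1 / 2 : ℝ) ^ (k + 3))
    (_ : ∀ k z, |z.im| < 2 → ‖deriv (Y k) z - 1‖ ≤ (1 / 2 : ℝ) ^ (k + 3))
    (_ : ∀ k (x : ℝ), Y k x = (y k x : ℂ))
    (_ : ∀ k x, y k (x + 1) = y k x + 1),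
    ∃ f : ℝ → ℝ, (∀ x, AnalyticAt ℝ f x) ∧ (∀ x, 0 < deriv f x) ∧ (∀ x, f (x + 1) = f x + 1) ∧
      ∀ K, ∃ h : ℝ → ℝ, (∀ x, f x = compUpTo y K (h x)) ∧
        ∀ τ : ℝ, (∀ j, K ≤ j → ∀ x, y j (x + τ) = y j x + τ) → ∀ x, h (x + τ) = h x + τ

/-- statement of module Y -/
def YhatSpec : Prop := ∀ (q : ℕ) (_ : 0 < q) (r φ : ℝ) (k : ℕ) (_ : 0 ≤ r)
    (_ : r * Real.exp (4 * Real.pi * q) ≤ (1 / 2 : ℝ) ^ (k + 5)),
    DifferentiableOn ℂ (Yhat q r φ) {z | |z.im| < 2} ∧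
    (∀ z : ℂ, |z.im| < 2 → ‖Yhat q r φ z - z‖ ≤ (1 / 2 : ℝ) ^ (k + 3)) ∧
    (∀ z : ℂ, |z.im| < 2 → ‖deriv (Yhat q r φ) z - 1‖ ≤ (1 / 2 : ℝ) ^ (k + 3)) ∧
    (∀ x : ℝ, Yhat q r φ x = ((x + (X r (q * x - φ) - (q * x - φ)) / q : ℝ) : ℂ))

/-- statement of module I -/
def InverseAnalytic : Prop := ∀ (f : ℝ → ℝ) (_ : ∀ x, AnalyticAt ℝ f x) (_ : ∀ x, 0 < deriv f x)
    (_ : ∀ x, f (x + 1) = f x + 1),
    ∃ g : ℝ → ℝ, (∀ x, AnalyticAt ℝ g x) ∧ (∀ x, 0 < deriv g x) ∧ (∀ x, g (x + 1) = g x + 1) ∧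
      (∀ x, g (f x) = x) ∧ (∀ x, f (g x) = x)

section seq

variable (hcl : Closing) (α : ℝ)

/-- choice of the data -/
noncomputable def dat (k : ℕ) (st : {st : St // 3 ≤ (st.m : ℕ)}) : Dt :=
  Classical.choose (step hcl α k st.1 st.2)

lemma dat_good (k : ℕ) (st : {st : St // 3 ≤ (st.m : ℕ)}) : Good α k st.1 (dat hcl α k st) :=
  Classical.choose_spec (step hcl α k st.1 st.2)

noncomputable def sq : ℕ → {st : St // 3 ≤ (st.m : ℕ)}
  | 0 => ⟨⟨1, 3, 0, 0, 1⟩, by norm_num⟩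
  | k + 1 => ⟨nxt (sq k).1 (dat hcl α k (sq k)), (dat_good hcl α k (sq k)).2.2.2.2.2.2.2.1⟩

/-- the state at level `k` -/
noncomputable def st (k : ℕ) : St := (sq hcl α k).1

/-- the data at level `k` -/
noncomputable def dt (k : ℕ) : Dt := dat hcl α k (sq hcl α k)

lemma good (k : ℕ) : Good α k (st hcl α k) (dt hcl α k) := dat_good hcl α k (sq hcl α k)

lemma st_zero : st hcl α 0 = ⟨1, 3, 0, 0, 1⟩ := rfl

lemma st_succ (k : ℕ) : st hcl α (k + 1) = nxt (st hcl α k) (dt hcl α k) := rfl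

lemma st_q_succ (k : ℕ) : ((st hcl α (k + 1)).q : ℕ) = (st hcl α k).q * (st hcl α k).m := rfl

lemma st_m_succ (k : ℕ) : (st hcl α (k + 1)).m = (dt hcl α k).m' := rfl

lemma st_a_succ (k : ℕ) : (st hcl α (k + 1)).a =
    (st hcl α k).a + (dt hcl α k).s / (((st hcl α k).q : ℕ) : ℝ) := rfl

lemma st_e_succ (k : ℕ) : (st hcl α (k + 1)).e = (st hcl α k).e + LL (st hcl α k) (dt hcl α k) := rfl

lemma st_l_succ (k : ℕ) : (st hcl α (k + 1)).l = 4 * LL (st hcl α k) (dt hcl α k) := rfl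

/-- `q_k` as a real number -/
noncomputable def qr (k : ℕ) : ℝ := (((st hcl α k).q : ℕ) : ℝ)

lemma qr_pos (k : ℕ) : 0 < qr hcl α k := by unfold qr; positivity

lemma q_dvd (K j : ℕ) (h : K ≤ j) : ∃ n : ℕ, qr hcl α j = qr hcl α K * n := by
  induction j, h using Nat.le_induction with
  | base => exact ⟨1, by simp⟩
  | succ j hj ih =>
    obtain ⟨n, hn⟩ := ih
    refine ⟨n * (st hcl α j).m, ?_⟩
    have h1 : qr hcl α (j + 1) = qr hcl α j * (((st hcl α j).m : ℕ) : ℝ) := by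
      unfold qr
      rw [st_q_succ]; push_cast; rfl
    rw [h1, hn]; push_cast; ring

noncomputable def yy (i k : ℕ) (x : ℝ) : ℝ :=
  x + (X (dt hcl α k).r (qr hcl α k * x - (qr hcl α k * (st hcl α k).a + (dt hcl α k).θ i)) -
    (qr hcl α k * x - (qr hcl α k * (st hcl α k).a + (dt hcl α k).θ i))) / qr hcl α k

noncomputable def yP (i k : ℕ) : Perm ℝ :=
  T (st hcl α k).a * Lam (st hcl α k).q (T ((dt hcl α k).θ i) * XP (dt hcl α k).r * (T ((dt hcl α k).θ i))⁻¹) *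
    (T (st hcl α k).a)⁻¹

lemma r_half (k : ℕ) : |(dt hcl α k).r| < 1 / 2 := by
  have h := good hcl α k
  rw [abs_of_pos h.1]; linarith [h.2.1]

lemma yP_apply (i k : ℕ) (x : ℝ) : yP hcl α i k x = yy hcl α i k x := by
  unfold yP yy
  have hq := qr_pos hcl α k
  have hqr : (((st hcl α k).q : ℕ) : ℝ) = qr hcl α k := rfl
  simp only [Perm.mul_apply, T_apply, T_inv_apply, Lam_apply, XP_apply (r_half hcl α k), hqr]
  have e1 : qr hcl α k * (x - (st hcl α k).a) - (dt hcl α k).θ i =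
    qr hcl α k * x - (qr hcl α k * (st hcl α k).a + (dt hcl α k).θ i) := by ring
  rw [e1]
  field_simp
  ring

lemma X_add_nat (r x : ℝ) (n : ℕ) : X r (x + n) = X r x + n := by
  induction n with
  | zero => simp
  | succ n ih =>
    have : x + ((n + 1 : ℕ) : ℝ) = (x + n) + 1 := by push_cast; ring
    rw [this, X_add_one, ih]; push_cast; ring

lemma yy_add (i K j : ℕ) (h : K ≤ j) (x : ℝ) :
    yy hcl α i j (x + 1 / qr hcl α K) = yy hcl α i j x + 1 / qr hcl α K := by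
  obtain ⟨n, hn⟩ := q_dvd hcl α K j h
  have hK := qr_pos hcl α K
  have hj := qr_pos hcl α j
  unfold yy
  have e1 : qr hcl α j * (x + 1 / qr hcl α K) - (qr hcl α j * (st hcl α j).a + (dt hcl α j).θ i) =
      (qr hcl α j * x - (qr hcl α j * (st hcl α j).a + (dt hcl α j).θ i)) + n := by
    rw [mul_add]
    have : qr hcl α j * (1 / qr hcl α K) = n := by rw [hn]; field_simp
    rw [this]; ring
  rw [e1, X_add_nat]
  ring

lemma yy_add_one (i j : ℕ) (x : ℝ) : yy hcl α i j (x + 1) = yy hcl α i j x + 1 := by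
  have h := yy_add hcl α i 0 j (Nat.zero_le _) x
  have h0 : qr hcl α 0 = 1 := by
    unfold qr; rw [st_zero]; simp
  rw [h0] at h
  simpa using h

noncomputable def PP (i : ℕ) : ℕ → Perm ℝ
  | 0 => 1
  | k + 1 => PP i k * yP hcl α i k

lemma PP_coe (i K : ℕ) (x : ℝ) : PP hcl α i K x = compUpTo (yy hcl α i) K x := by
  induction K generalizing x with
  | zero => rfl
  | succ k ih =>
    show (PP hcl α i k * yP hcl α i k) x = (compUpTo (yy hcl α i) k ∘ yy hcl α i k) x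
    rw [Perm.mul_apply, ih, yP_apply]; rfl

/-- the generators -/
lemma exists_f (hY : YhatSpec) (hC : InfComp) (hI : InverseAnalytic) (i : ℕ) :
    ∃ f : Perm ℝ, ((∀ x, AnalyticAt ℝ f x) ∧ (∀ x, 0 < deriv f x) ∧ (∀ x, f (x + 1) = f x + 1)) ∧
      ((∀ x, AnalyticAt ℝ (f⁻¹ : Perm ℝ) x) ∧ (∀ x, 0 < deriv (f⁻¹ : Perm ℝ) x) ∧
        (∀ x, (f⁻¹ : Perm ℝ) (x + 1) = (f⁻¹ : Perm ℝ) x + 1)) ∧
      ∀ K, f * T (1 / qr hcl α K) * f⁻¹ = PP hcl α i K * T (1 / qr hcl α K) * (PP hcl α i K)⁻¹ := by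
  set Y : ℕ → ℂ → ℂ := fun k => Yhat ((st hcl α k).q : ℕ) (dt hcl α k).r
    (qr hcl α k * (st hcl α k).a + (dt hcl α k).θ i) with hYdef
  have hspec := fun k => hY ((st hcl α k).q : ℕ) (st hcl α k).q.pos (dt hcl α k).r
    (qr hcl α k * (st hcl α k).a + (dt hcl α k).θ i) k (good hcl α k).1.le (good hcl α k).2.2.1
  obtain ⟨f, hf1, hf2, hf3, hf4⟩ := hC Y (yy hcl α i) (fun k => (hspec k).1) (fun k => (hspec k).2.1)
    (fun k => (hspec k).2.2.1) (fun k x => (hspec k).2.2.2 x) (fun k x => yy_add_one hcl α i k x)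
  obtain ⟨g, hg1, hg2, hg3, hg4, hg5⟩ := hI f hf1 hf2 hf3
  refine ⟨⟨f, g, hg4, hg5⟩, ⟨hf1, hf2, hf3⟩, ⟨hg1, hg2, hg3⟩, fun K => ?_⟩
  obtain ⟨h, hh1, hh2⟩ := hf4 K
  have hh3 := hh2 (1 / qr hcl α K) (fun j hj x => yy_add hcl α i K j hj x)
  set F : Perm ℝ := ⟨f, g, hg4, hg5⟩ with hF
  have h4 : ∀ x, ((PP hcl α i K)⁻¹ * F) x = h x := by
    intro x
    rw [Perm.mul_apply, Perm.inv_def, Equiv.symm_apply_eq, PP_coe]
    exact hh1 x
  have h5 : ((PP hcl α i K)⁻¹ * F) * T (1 / qr hcl α K) = T (1 / qr hcl α K) * ((PP hcl α i K)⁻¹ * F) := by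
    ext x
    rw [Perm.mul_apply, h4, Perm.mul_apply, h4, T_apply, T_apply, hh3]
  calc F * T (1 / qr hcl α K) * F⁻¹
      = PP hcl α i K * (((PP hcl α i K)⁻¹ * F) * T (1 / qr hcl α K)) * F⁻¹ := by group
    _ = PP hcl α i K * (T (1 / qr hcl α K) * ((PP hcl α i K)⁻¹ * F)) * F⁻¹ := by rw [h5]
    _ = _ := by group

lemma Tcomm (s t : ℝ) : T s * T t = T t * T s := by rw [T_mul, T_mul, add_comm]

/-- elementary conjugation identity -/
lemma ZZ (r s θ b : ℝ) (N : ℕ) (h : (T b * XP r * T b * (XP r)⁻¹) ^ N = XP r * T s) :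
    (T b * (T θ * XP r * (T θ)⁻¹) * T b * (T θ * XP r * (T θ)⁻¹)⁻¹) ^ N = gg r s θ := by
  have h1 : T b * (T θ * XP r * (T θ)⁻¹) * T b * (T θ * XP r * (T θ)⁻¹)⁻¹ =
      T θ * (T b * XP r * T b * (XP r)⁻¹) * (T θ)⁻¹ := by
    have e1 : T b * T θ = T θ * T b := Tcomm _ _
    have e2 : (T θ)⁻¹ * T b * T θ = T b := by
      rw [mul_assoc, e1]; group
    calc T b * (T θ * XP r * (T θ)⁻¹) * T b * (T θ * XP r * (T θ)⁻¹)⁻¹
        = (T b * T θ) * XP r * ((T θ)⁻¹ * T b * T θ) * (XP r)⁻¹ * (T θ)⁻¹ := by group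
      _ = (T θ * T b) * XP r * T b * (XP r)⁻¹ * (T θ)⁻¹ := by rw [e2, e1]
      _ = _ := by group
  rw [h1, conj_pow, h]
  unfold gg
  have h2 : T s * (T θ)⁻¹ = T (s - θ) := by rw [T_inv, T_mul]; congr 1
  rw [← h2]; group

/-- the level `k` element -/
noncomputable def GG (i k : ℕ) : Perm ℝ :=
  Lam (st hcl α k).q (gg (dt hcl α k).r (dt hcl α k).s ((dt hcl α k).θ i))

lemma qr_succ (k : ℕ) : qr hcl α (k + 1) = qr hcl α k * (((st hcl α k).m : ℕ) : ℝ) := by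
  unfold qr
  rw [st_q_succ]; push_cast; rfl

lemma tau_eq (k : ℕ) : T (1 / qr hcl α (k + 1)) =
    Lam (st hcl α k).q (T (1 / (((st hcl α k).m : ℕ) : ℝ))) := by
  rw [Lam_T, qr_succ]
  congr 1
  have h1 := qr_pos hcl α k
  have h2 : (((st hcl α k).q : ℕ) : ℝ) = qr hcl α k := rfl
  rw [h2]
  field_simp

lemma GG_eq (f : Perm ℝ) (i k : ℕ)
    (hf : ∀ K, f * T (1 / qr hcl α K) * f⁻¹ = PP hcl α i K * T (1 / qr hcl α K) * (PP hcl α i K)⁻¹) :
    (T (1 / qr hcl α (k + 1)) * ((PP hcl α i k * T (st hcl α k).a)⁻¹ * f * T (1 / qr hcl α (k + 1)) * f⁻¹ *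
      (PP hcl α i k * T (st hcl α k).a))) ^ (dt hcl α k).N = GG hcl α i k := by
  have hg := (good hcl α k).2.2.2.2.1
  have h1 := ZZ (dt hcl α k).r (dt hcl α k).s ((dt hcl α k).θ i) _ _ hg
  unfold GG
  rw [← h1, map_pow]
  congr 1
  have h2 := hf (k + 1)
  set τ := T (1 / qr hcl α (k + 1)) with hτ
  have h3 : PP hcl α i (k + 1) = PP hcl α i k * yP hcl α i k := rfl
  obtain ⟨Z, hZ⟩ : ∃ Z, Z = T ((dt hcl α k).θ i) * XP (dt hcl α k).r * (T ((dt hcl α k).θ i))⁻¹ := ⟨_, rfl⟩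
  have h4 : yP hcl α i k = T (st hcl α k).a * Lam (st hcl α k).q Z * (T (st hcl α k).a)⁻¹ := by
    rw [hZ]; rfl
  rw [← hZ]
  have h5 : (T (st hcl α k).a)⁻¹ * τ * T (st hcl α k).a = τ := by
    rw [mul_assoc, hτ, Tcomm]; group
  have h6 : τ = Lam (st hcl α k).q (T (1 / (((st hcl α k).m : ℕ) : ℝ))) := tau_eq hcl α k
  calc τ * ((PP hcl α i k * T (st hcl α k).a)⁻¹ * f * τ * f⁻¹ * (PP hcl α i k * T (st hcl α k).a))
      = τ * ((PP hcl α i k * T (st hcl α k).a)⁻¹ * (f * τ * f⁻¹) * (PP hcl α i k * T (st hcl α k).a)) := by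
        group
    _ = τ * ((PP hcl α i k * T (st hcl α k).a)⁻¹ * (PP hcl α i (k + 1) * τ * (PP hcl α i (k + 1))⁻¹) *
        (PP hcl α i k * T (st hcl α k).a)) := by rw [h2]
    _ = τ * (Lam (st hcl α k).q Z * ((T (st hcl α k).a)⁻¹ * τ * T (st hcl α k).a) * (Lam (st hcl α k).q Z)⁻¹) := by
        rw [h3, h4]; group
    _ = τ * (Lam (st hcl α k).q Z * τ * (Lam (st hcl α k).q Z)⁻¹) := by rw [h5]
    _ = Lam (st hcl α k).q (T (1 / (((st hcl α k).m : ℕ) : ℝ)) * Z * T (1 / (((st hcl α k).m : ℕ) : ℝ)) * Z⁻¹) := by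
        simp only [map_mul, map_inv, ← h6]; group

lemma E_succ (i k : ℕ) : PP hcl α i (k + 1) * T (st hcl α (k + 1)).a =
    (PP hcl α i k * T (st hcl α k).a) * GG hcl α i k := by
  have h3 : PP hcl α i (k + 1) = PP hcl α i k * yP hcl α i k := rfl
  obtain ⟨Z, hZ⟩ : ∃ Z, Z = T ((dt hcl α k).θ i) * XP (dt hcl α k).r * (T ((dt hcl α k).θ i))⁻¹ := ⟨_, rfl⟩
  have h4 : yP hcl α i k = T (st hcl α k).a * Lam (st hcl α k).q Z * (T (st hcl α k).a)⁻¹ := by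
    rw [hZ]; rfl
  have h5 : (T (st hcl α k).a)⁻¹ * T (st hcl α (k + 1)).a = Lam (st hcl α k).q (T (dt hcl α k).s) := by
    rw [Lam_T, st_a_succ, T_inv, T_mul]; congr 1; ring
  have h6 : Z * T (dt hcl α k).s = gg (dt hcl α k).r (dt hcl α k).s ((dt hcl α k).θ i) := by
    unfold gg
    have h2 : (T ((dt hcl α k).θ i))⁻¹ * T (dt hcl α k).s = T ((dt hcl α k).s - (dt hcl α k).θ i) := by
      rw [T_inv, T_mul]; congr 1; ring
    rw [← h2, hZ]; group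
  unfold GG
  rw [h3, h4, ← h6, map_mul, ← h5]
  group

lemma words (f : ℕ → Perm ℝ) (S : Set (Perm ℝ)) (hS : ∀ x ∈ S, x⁻¹ ∈ S) (hfS : ∀ i < 8, f i ∈ S)
    (hT : T (1 / 3) ∈ S)
    (hf : ∀ i < 8, ∀ K, f i * T (1 / qr hcl α K) * (f i)⁻¹ =
      PP hcl α i K * T (1 / qr hcl α K) * (PP hcl α i K)⁻¹) (k : ℕ) :
    ((∀ i < 8, W S (st hcl α k).e (PP hcl α i k * T (st hcl α k).a)) ∧
      W S (st hcl α k).l (T (1 / qr hcl α (k + 1)))) ∧
    (∀ i < 8, W S (LL (st hcl α k) (dt hcl α k)) (GG hcl α i k)) := by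
  have key : ∀ k, ((∀ i < 8, W S (st hcl α k).e (PP hcl α i k * T (st hcl α k).a)) ∧
      W S (st hcl α k).l (T (1 / qr hcl α (k + 1)))) →
      ∀ i < 8, W S (LL (st hcl α k) (dt hcl α k)) (GG hcl α i k) := by
    rintro k ⟨hE, hR⟩ i hi
    rw [← GG_eq hcl α (f i) i k (hf i hi)]
    have h1 := (hE i hi)
    have h2 := W_of_mem (hfS i hi)
    have h3 := ((((h1.inv hS).mul h2).mul hR).mul (h2.inv hS)).mul h1
    have h4 := (hR.mul h3).pow (dt hcl α k).N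
    refine h4.mono ?_
    unfold LL
    apply Nat.mul_le_mul_left
    omega
  have main : ∀ k, ((∀ i < 8, W S (st hcl α k).e (PP hcl α i k * T (st hcl α k).a)) ∧
      W S (st hcl α k).l (T (1 / qr hcl α (k + 1)))) := by
    intro k
    induction k with
    | zero =>
      refine ⟨fun i _ => ?_, ?_⟩
      · have : PP hcl α i 0 * T (st hcl α 0).a = 1 := by
          rw [st_zero]; show 1 * T 0 = 1; simp
        rw [this]; exact W_one _ _
      · have h1 : qr hcl α (0 + 1) = 3 := by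
          rw [qr_succ]; unfold qr; rw [st_zero]; simp
        rw [h1, st_zero]
        exact W_of_mem hT
    | succ k ih =>
      have hG := key k ih
      refine ⟨fun i hi => ?_, ?_⟩
      · rw [E_succ, st_e_succ]
        exact (ih.1 i hi).mul (hG i hi)
      · have h1 : T (1 / qr hcl α (k + 1 + 1)) = GG hcl α 0 k * (GG hcl α 1 k)⁻¹ * GG hcl α 2 k * (GG hcl α 3 k)⁻¹ := by
          unfold GG
          rw [← map_inv, ← map_inv, ← map_mul, ← map_mul, ← map_mul, (good hcl α k).2.2.2.2.2.1, Lam_T]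
          congr 1
          rw [qr_succ, qr_succ, st_m_succ]
          have h1 := qr_pos hcl α k
          have h2 : (((st hcl α k).q : ℕ) : ℝ) = qr hcl α k := rfl
          rw [h2]
          field_simp
        rw [h1, st_l_succ]
        have h2 := (((hG 0 (by norm_num)).mul ((hG 1 (by norm_num)).inv hS)).mul (hG 2 (by norm_num))).mul
          ((hG 3 (by norm_num)).inv hS)
        exact h2.mono (by omega)
  exact ⟨main k, key k (main k)⟩

lemma final_word (f : ℕ → Perm ℝ) (S : Set (Perm ℝ)) (hS : ∀ x ∈ S, x⁻¹ ∈ S) (hfS : ∀ i < 8, f i ∈ S)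
    (hT : T (1 / 3) ∈ S)
    (hf : ∀ i < 8, ∀ K, f i * T (1 / qr hcl α K) * (f i)⁻¹ =
      PP hcl α i K * T (1 / qr hcl α K) * (PP hcl α i K)⁻¹) (ε : ℝ) (hε : 0 < ε) :
    ∃ (n : ℕ) (L : ℕ) (p : ℤ), 0 < n ∧ (L : ℝ) ≤ ε * n ∧ W S L (T (n * α - p)) := by
  obtain ⟨k, hk⟩ := exists_nat_one_div_lt hε
  have hG := (words hcl α f S hS hfS hT hf k).2
  have hgood := good hcl α k
  refine ⟨(dt hcl α k).n, 4 * LL (st hcl α k) (dt hcl α k), (dt hcl α k).p, hgood.2.2.2.2.2.2.2.2.1, ?_, ?_⟩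
  · have h1 := hgood.2.2.2.2.2.2.2.2.2
    have h2 : ((k : ℝ) + 1) * ((4 * LL (st hcl α k) (dt hcl α k) : ℕ) : ℝ) ≤ (dt hcl α k).n := by
      exact_mod_cast h1
    have h3 : (0 : ℝ) < (k : ℝ) + 1 := by positivity
    have h4 : (0 : ℝ) ≤ ((dt hcl α k).n : ℝ) := by positivity
    have h5 : ((4 * LL (st hcl α k) (dt hcl α k) : ℕ) : ℝ) ≤ (dt hcl α k).n / ((k : ℝ) + 1) := by
      rw [le_div_iff₀ h3]; linarith
    refine h5.trans ?_
    rw [div_eq_mul_one_div, mul_comm]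
    exact mul_le_mul_of_nonneg_right hk.le h4
  · have h1 : T ((dt hcl α k).n * α - (dt hcl α k).p) =
        GG hcl α 4 k * (GG hcl α 5 k)⁻¹ * GG hcl α 6 k * (GG hcl α 7 k)⁻¹ := by
      unfold GG
      rw [← map_inv, ← map_inv, ← map_mul, ← map_mul, ← map_mul, hgood.2.2.2.2.2.2.1, Lam_T]
      congr 1
      field_simp
    rw [h1]
    have h2 := (((hG 4 (by norm_num)).mul ((hG 5 (by norm_num)).inv hS)).mul (hG 6 (by norm_num))).mul
      ((hG 7 (by norm_num)).inv hS)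
    exact h2.mono (by omega)

end seq

end Pool.Agent.Helper39.Rot
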