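import Mathlib

set_option autoImplicit false

namespace Pool.Agent.Helper39.Rot

/-- Lift to the line of the Moebius map `z ↦ (z + r) / (1 + r z)` of the unit circle. -/
noncomputable def X (r x : ℝ) : ℝ :=
  x - Complex.arg (1 + r * Complex.exp (2 * Real.pi * x * Complex.I)) / Real.pi

/-- `y 0 ∘ y 1 ∘ ... ∘ y (K-1)`. -/
def compUpTo (y : ℕ → ℝ → ℝ) : ℕ → ℝ → ℝ
  | 0 => id
  | (K + 1) => compUpTo y K ∘ y K

/-- Complex extension of `x ↦ x + (X r (q x - φ) - (q x - φ)) / q`. -/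
noncomputable def Yhat (q : ℕ) (r φ : ℝ) (z : ℂ) : ℂ :=
  z + (Complex.I / (2 * Real.pi * q)) *
    (Complex.log (1 + r * Complex.exp (2 * Real.pi * (q * z - φ) * Complex.I)) -
     Complex.log (1 + r * Complex.exp (-(2 * Real.pi * (q * z - φ) * Complex.I))))

end Pool.Agent.Helper39.Rot
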