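import Pool.Agent.Helper39.Rot.Power

set_option autoImplicit false

namespace Pool.Agent.Helper39.Rot

open Equiv

/-- translations as permutations of the line -/
def T (s : ℝ) : Perm ℝ := Equiv.addRight s

@[simp] lemma T_apply (s x : ℝ) : T s x = x + s := rfl

lemma T_mul (s t : ℝ) : T s * T t = T (s + t) := by
  ext x; simp [Perm.mul_apply]; ring

@[simp] lemma T_zero : T 0 = 1 := by ext x; simp

lemma T_inv (s : ℝ) : (T s)⁻¹ = T (-s) := by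
  rw [inv_eq_iff_mul_eq_one, T_mul]; simp

@[simp] lemma T_inv_apply (s x : ℝ) : (T s)⁻¹ x = x - s := by
  rw [T_inv]; simp [sub_eq_add_neg]

/-- Moebius lifts as permutations of the line -/
noncomputable def XP (r : ℝ) : Perm ℝ :=
  open Classical in
  if h : |r| < 1 / 2 then ⟨X r, X (-r), X_neg_X h, X_X_neg h⟩ else 1

lemma XP_apply {r : ℝ} (h : |r| < 1 / 2) (x : ℝ) : XP r x = X r x := by
  unfold XP; rw [dif_pos h]; rfl

lemma XP_inv_apply {r : ℝ} (h : |r| < 1 / 2) (x : ℝ) : (XP r)⁻¹ x = X (-r) x := by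
  unfold XP; rw [dif_pos h]; rfl

noncomputable def MM (q : ℕ+) : Perm ℝ := Equiv.mulLeft₀ ((q : ℕ) : ℝ) (by positivity)

/-- `Λ_q` : conjugation by multiplication by `q`. -/
noncomputable def Lam (q : ℕ+) : Perm ℝ →* Perm ℝ := (MulAut.conj (MM q)⁻¹).toMonoidHom

lemma Lam_eq (q : ℕ+) (g : Perm ℝ) : Lam q g = (MM q)⁻¹ * g * MM q := by
  simp [Lam]

lemma Lam_apply (q : ℕ+) (g : Perm ℝ) (x : ℝ) : Lam q g x = g (((q : ℕ) : ℝ) * x) / ((q : ℕ) : ℝ) := by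
  rw [Lam_eq]
  have hq : (((q : ℕ) : ℝ)) ≠ 0 := by positivity
  rw [Perm.mul_apply, Perm.mul_apply, Perm.inv_def]
  have h1 : MM q x = ((q : ℕ) : ℝ) * x := rfl
  rw [h1, Equiv.symm_apply_eq]
  have h2 : MM q (g (((q : ℕ) : ℝ) * x) / ((q : ℕ) : ℝ)) = ((q : ℕ) : ℝ) * (g (((q : ℕ) : ℝ) * x) / ((q : ℕ) : ℝ)) := rfl
  rw [h2]; field_simp

lemma Lam_T (q : ℕ+) (s : ℝ) : Lam q (T s) = T (s / ((q : ℕ) : ℝ)) := by
  ext x
  rw [Lam_apply, T_apply, T_apply]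
  have hq : (((q : ℕ) : ℝ)) ≠ 0 := by positivity
  field_simp

/-- word length predicate -/
def W (S : Set (Perm ℝ)) (n : ℕ) (g : Perm ℝ) : Prop :=
  ∃ l : List (Perm ℝ), (∀ x ∈ l, x ∈ S) ∧ l.length ≤ n ∧ l.prod = g

lemma W_one (S : Set (Perm ℝ)) (n : ℕ) : W S n 1 := ⟨[], by simp, by simp, by simp⟩

lemma W_of_mem {S : Set (Perm ℝ)} {g : Perm ℝ} (h : g ∈ S) : W S 1 g :=
  ⟨[g], by simpa using h, by simp, by simp⟩

lemma W.mono {S : Set (Perm ℝ)} {n m : ℕ} {g : Perm ℝ} (h : W S n g) (hnm : n ≤ m) : W S m g := by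
  obtain ⟨l, h1, h2, h3⟩ := h
  exact ⟨l, h1, h2.trans hnm, h3⟩

lemma W.mul {S : Set (Perm ℝ)} {n m : ℕ} {g h : Perm ℝ} (hg : W S n g) (hh : W S m h) :
    W S (n + m) (g * h) := by
  obtain ⟨l, h1, h2, h3⟩ := hg
  obtain ⟨l', h1', h2', h3'⟩ := hh
  refine ⟨l ++ l', ?_, ?_, ?_⟩
  · intro x hx
    rcases List.mem_append.1 hx with hx | hx
    · exact h1 x hx
    · exact h1' x hx
  · rw [List.length_append]; omega
  · rw [List.prod_append, h3, h3']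

lemma W.inv {S : Set (Perm ℝ)} (hS : ∀ x ∈ S, x⁻¹ ∈ S) {n : ℕ} {g : Perm ℝ} (hg : W S n g) :
    W S n g⁻¹ := by
  obtain ⟨l, h1, h2, h3⟩ := hg
  refine ⟨(l.map (fun x => x⁻¹)).reverse, ?_, ?_, ?_⟩
  · intro x hx
    rw [List.mem_reverse, List.mem_map] at hx
    obtain ⟨y, hy, rfl⟩ := hx
    exact hS y (h1 y hy)
  · simpa using h2
  · rw [← List.prod_inv_reverse, h3]

lemma W.pow {S : Set (Perm ℝ)} {n : ℕ} {g : Perm ℝ} (hg : W S n g) (N : ℕ) :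
    W S (N * n) (g ^ N) := by
  induction N with
  | zero => simpa using W_one S 0
  | succ k ih =>
    rw [pow_succ]
    exact (ih.mul hg).mono (by ring_nf; rfl)

/-- the closing element `T_θ X_r T_{s-θ}` -/
noncomputable def gg (r s θ : ℝ) : Perm ℝ := T θ * XP r * T (s - θ)

end Pool.Agent.Helper39.Rot
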