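import Pool.Agent.Helper39.Rot.Defs

set_option autoImplicit false

namespace Pool.Agent.Helper39.Rot

open Complex ComplexConjugate

/-- `e x = exp(2π i x)`. -/
noncomputable def e (x : ℝ) : ℂ := Complex.exp (2 * Real.pi * x * Complex.I)

lemma norm_e (x : ℝ) : ‖e x‖ = 1 := by
  unfold e
  have : (2 * (Real.pi : ℂ) * x * Complex.I) = ((2 * Real.pi * x : ℝ) : ℂ) * Complex.I := by
    push_cast; ring
  rw [this, Complex.norm_exp_ofReal_mul_I]

lemma e_ne_zero (x : ℝ) : e x ≠ 0 := Complex.exp_ne_zero _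

lemma e_add (x y : ℝ) : e (x + y) = e x * e y := by
  unfold e
  rw [← Complex.exp_add]; congr 1; push_cast; ring

lemma e_zero : e 0 = 1 := by simp [e]

lemma e_neg (x : ℝ) : e (-x) = (e x)⁻¹ := by
  unfold e
  rw [← Complex.exp_neg]; congr 1; push_cast; ring

lemma conj_e (x : ℝ) : conj (e x) = e (-x) := by
  unfold e
  rw [← Complex.exp_conj]; congr 1
  simp [Complex.conj_ofNat]

lemma e_mul_conj (x : ℝ) : e x * conj (e x) = 1 := by
  rw [conj_e, ← e_add]; simp [e_zero]

lemma e_one : e 1 = 1 := by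
  unfold e
  simp

lemma e_int (n : ℤ) : e n = 1 := by
  unfold e
  have : (2 * (Real.pi : ℂ) * ((n : ℝ) : ℂ) * Complex.I) = n * (2 * Real.pi * Complex.I) := by
    push_cast; ring
  rw [this, Complex.exp_int_mul_two_pi_mul_I]

lemma e_eq_iff (x y : ℝ) : e x = e y ↔ ∃ n : ℤ, x = y + n := by
  unfold e
  rw [Complex.exp_eq_exp_iff_exists_int]
  have hpi : (2 * (Real.pi : ℂ) * Complex.I) ≠ 0 := Complex.two_pi_I_ne_zero
  constructor
  · rintro ⟨n, hn⟩
    refine ⟨n, ?_⟩
    have : (2 * (Real.pi : ℂ) * Complex.I) * x = (2 * (Real.pi : ℂ) * Complex.I) * (y + n) := by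
      linear_combination hn
    have h2 := mul_left_cancel₀ hpi this
    exact_mod_cast h2
  · rintro ⟨n, hn⟩
    refine ⟨n, ?_⟩
    rw [hn]; push_cast; ring

lemma continuous_e : Continuous e := by
  unfold e; fun_prop

lemma X_eq (r x : ℝ) : X r x = x - Complex.arg (1 + r * e x) / Real.pi := rfl

lemma re_pos {r : ℝ} (hr : |r| < 1) (x : ℝ) : 0 < (1 + r * e x).re := by
  have h1 : |((r : ℂ) * e x).re| ≤ ‖(r : ℂ) * e x‖ := Complex.abs_re_le_norm _
  rw [norm_mul, norm_e, mul_one, Complex.norm_real, Real.norm_eq_abs] at h1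
  have h2 := (abs_le.1 h1).1
  simp only [Complex.add_re, Complex.one_re]
  linarith

lemma mem_slit {r : ℝ} (hr : |r| < 1) (x : ℝ) : (1 + r * e x) ∈ Complex.slitPlane :=
  Or.inl (re_pos hr x)

lemma ne_zero' {r : ℝ} (hr : |r| < 1) (x : ℝ) : (1 + r * e x) ≠ 0 :=
  Complex.slitPlane_ne_zero (mem_slit hr x)

lemma continuous_X {r : ℝ} (hr : |r| < 1) : Continuous (X r) := by
  have : Continuous fun x : ℝ => Complex.arg (1 + r * e x) := by
    rw [continuous_iff_continuousAt]
    intro x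
    have h1 : ContinuousAt Complex.arg (1 + r * e x) := Complex.continuousAt_arg (mem_slit hr x)
    have h2 : ContinuousAt (fun x : ℝ => (1 + r * e x)) x := by
      have := continuous_e
      fun_prop
    exact ContinuousAt.comp (f := fun x : ℝ => (1 + r * e x)) h1 h2
  have h : X r = fun x => x - Complex.arg (1 + r * e x) / Real.pi := rfl
  rw [h]
  fun_prop

lemma X_add_one (r x : ℝ) : X r (x + 1) = X r x + 1 := by
  rw [X_eq, X_eq, e_add, e_one, mul_one]; ring

/-- Moebius relation. -/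
def Mob (F : ℝ → ℝ) (a b : ℂ) : Prop :=
  ∀ x : ℝ, e (F x) * (conj b * e x + conj a) = a * e x + b

lemma Mob.comp {F G : ℝ → ℝ} {a b c d : ℂ} (hF : Mob F a b) (hG : Mob G c d) :
    Mob (fun x => F (G x)) (a * c + b * conj d) (a * d + b * conj c) := by
  intro x
  have h1 := hF (G x)
  have h2 := hG x
  simp only [map_add, map_mul, Complex.conj_conj]
  linear_combination (conj d * e x + conj c) * h1 + (a - e (F (G x)) * conj b) * h2

lemma Mob_T (s : ℝ) : Mob (fun x => x + s) (e (s / 2)) 0 := by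
  intro x
  simp only [map_zero, zero_mul, zero_add, add_zero, conj_e]
  rw [← e_add, ← e_add]; congr 1; ring

lemma Mob_X {r : ℝ} (hr : |r| < 1) : Mob (X r) 1 r := by
  intro x
  set w : ℂ := 1 + r * e x with hw
  have hw0 : w ≠ 0 := ne_zero' hr x
  -- e (X r x) = e x * (e (arg w / π))⁻¹ ; and e(arg w/π) = w / conj w
  have h1 : e (X r x) = e x * e (-(Complex.arg w / Real.pi)) := by
    rw [← e_add]; rfl
  have h2 : e (Complex.arg w / Real.pi) * conj w = w := by
    have h3 : w = (‖w‖ : ℂ) * Complex.exp (Complex.arg w * Complex.I) :=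
      (Complex.norm_mul_exp_arg_mul_I w).symm
    have h4 : conj w = (‖w‖ : ℂ) * Complex.exp (-(Complex.arg w * Complex.I)) := by
      conv_lhs => rw [h3]
      rw [map_mul, Complex.conj_ofReal, ← Complex.exp_conj]
      congr 2
      simp
    rw [h4]
    conv_rhs => rw [h3]
    unfold e
    have hpi : (Real.pi : ℂ) ≠ 0 := by exact_mod_cast Real.pi_ne_zero
    have h5 : (2 * (Real.pi : ℂ) * ((Complex.arg w / Real.pi : ℝ) : ℂ) * Complex.I)
        = Complex.arg w * Complex.I + Complex.arg w * Complex.I := by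
      push_cast; field_simp; ring
    rw [h5, Complex.exp_add]
    have h6 : Complex.exp (Complex.arg w * Complex.I) * Complex.exp (-(Complex.arg w * Complex.I)) = 1 := by
      rw [← Complex.exp_add]; simp
    linear_combination (‖w‖ : ℂ) * Complex.exp (Complex.arg w * Complex.I) * h6
  have h7 : conj w = 1 + r * (e x)⁻¹ := by
    rw [hw]; simp [conj_e, e_neg]
  have h8 : e (-(Complex.arg w / Real.pi)) * w = conj w := by
    rw [e_neg]
    have := e_ne_zero (Complex.arg w / Real.pi)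
    field_simp
    exact h2.symm
  rw [h1]
  simp only [Complex.conj_ofReal, map_one, one_mul]
  have h9 : (r : ℂ) * e x + 1 = w := by rw [hw]; ring
  rw [h9]
  have h10 := e_ne_zero x
  calc e x * e (-(Complex.arg w / Real.pi)) * w = e x * (e (-(Complex.arg w / Real.pi)) * w) := by ring
    _ = e x * conj w := by rw [h8]
    _ = e x + r := by rw [h7]; field_simp

lemma int_of_continuous {F : ℝ → ℝ} (hF : Continuous F) (h : ∀ x, ∃ n : ℤ, F x = n) :
    ∀ x y, F x = F y := by
  -- a continuous function with values in the integers is constant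
  have hcon : ∀ x, e (F x) = 1 := by
    intro x; obtain ⟨n, hn⟩ := h x; rw [hn, e_int]
  choose n hn using h
  have hnc : Continuous n := by
    have : Continuous fun x => ((n x : ℤ) : ℝ) := by
      have h2 : (fun x => ((n x : ℤ) : ℝ)) = F := by funext x; exact (hn x).symm
      rw [h2]; exact hF
    exact Int.isClosedEmbedding_coe_real.isEmbedding.continuous_iff.2 this
  intro x y
  rw [hn x, hn y]
  have := PreconnectedSpace.constant (inferInstance : PreconnectedSpace ℝ) hnc (x := x) (y := y)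
  rw [this]

lemma rigid {F : ℝ → ℝ} (hc : Continuous F) {a : ℂ} (ha : a ≠ 0) (h : Mob F a 0) (s : ℝ)
    (hs : a = e (s / 2) * ‖a‖) : ∃ n : ℤ, ∀ x, F x = x + s + n := by
  have h1 : ∀ x, ∃ n : ℤ, F x = x + s + n := by
    intro x
    rw [← e_eq_iff]
    have h2 := h x
    simp only [map_zero, zero_mul, zero_add, add_zero] at h2
    have hca : conj a ≠ 0 := (map_ne_zero _).2 ha
    have h3 : conj a = e (-(s / 2)) * ‖a‖ := by
      conv_lhs => rw [hs]
      rw [map_mul, conj_e, Complex.conj_ofReal]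
    apply mul_right_cancel₀ hca
    rw [h2]
    have hn : (‖a‖ : ℂ) ≠ 0 := by exact_mod_cast (norm_ne_zero_iff.2 ha)
    rw [h3]
    conv_lhs => rw [hs]
    have h4 : e (x + s) * e (-(s / 2)) = e (s / 2) * e x := by
      rw [← e_add, ← e_add]; congr 1; ring
    linear_combination (-(‖a‖ : ℂ)) * h4
  have h5 : Continuous fun x => F x - x - s := by fun_prop
  have h6 := int_of_continuous h5 (fun x => by obtain ⟨n, hn⟩ := h1 x; exact ⟨n, by rw [hn]; ring⟩)
  obtain ⟨n, hn⟩ := h1 0
  refine ⟨n, fun x => ?_⟩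
  have h7 := h6 x 0
  rw [hn] at h7
  linarith

lemma exists_arg (a : ℂ) : a = e ((Complex.arg a / Real.pi) / 2) * ‖a‖ := by
  have h3 : a = (‖a‖ : ℂ) * Complex.exp (Complex.arg a * Complex.I) :=
      (Complex.norm_mul_exp_arg_mul_I a).symm
  conv_lhs => rw [h3]
  rw [mul_comm]
  congr 1
  unfold e
  congr 1
  have hpi : (Real.pi : ℂ) ≠ 0 := by exact_mod_cast Real.pi_ne_zero
  push_cast
  field_simp

lemma rigid' {F : ℝ → ℝ} (hc : Continuous F) {a : ℂ} (ha : a ≠ 0) (h : Mob F a 0) :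
    ∃ s : ℝ, ∀ x, F x = x + s := by
  obtain ⟨n, hn⟩ := rigid hc ha h (Complex.arg a / Real.pi) (exists_arg a)
  exact ⟨Complex.arg a / Real.pi + n, fun x => by rw [hn]; ring⟩

lemma abs_X_sub {r : ℝ} (hr : |r| ≤ 1 / 2) (x : ℝ) : |X r x - x| ≤ |r| / 2 := by
  have h1 : ‖(r : ℂ) * e x‖ = |r| := by
    rw [norm_mul, norm_e, mul_one, Complex.norm_real, Real.norm_eq_abs]
  have h2 : ‖Complex.log (1 + (r : ℂ) * e x)‖ ≤ (3 / 2) * ‖(r : ℂ) * e x‖ :=
    Complex.norm_log_one_add_half_le_self (by rw [h1]; exact hr)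
  have h3 : |Complex.arg (1 + (r : ℂ) * e x)| ≤ (3 / 2) * |r| := by
    rw [← h1, ← Complex.log_im]
    exact (Complex.abs_im_le_norm _).trans h2
  have h4 : X r x - x = -(Complex.arg (1 + r * e x) / Real.pi) := by rw [X_eq]; ring
  rw [h4, abs_neg, abs_div, abs_of_pos Real.pi_pos, div_le_iff₀ Real.pi_pos]
  have := Real.pi_gt_three
  nlinarith [abs_nonneg r]

lemma X_neg_X {r : ℝ} (hr : |r| < 1 / 2) (x : ℝ) : X (-r) (X r x) = x := by
  have hr1 : |r| < 1 := by linarith
  have hr2 : |-r| < 1 := by rw [abs_neg]; exact hr1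
  have h1 := (Mob_X hr2).comp (Mob_X hr1)
  have h2 : ((1 : ℂ) * r + ((-r : ℝ) : ℂ) * conj (1 : ℂ)) = 0 := by simp
  rw [h2] at h1
  have hc : Continuous fun x => X (-r) (X r x) := (continuous_X hr2).comp (continuous_X hr1)
  have ha : ((1 : ℂ) * 1 + ((-r : ℝ) : ℂ) * conj (r : ℂ)) = ((1 - r ^ 2 : ℝ) : ℂ) := by
    rw [Complex.conj_ofReal]; push_cast; ring
  rw [ha] at h1
  have hpos : 0 < 1 - r ^ 2 := by
    have : r ^ 2 < 1 := by
      rw [← sq_abs]; nlinarith [abs_nonneg r]
    linarith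
  obtain ⟨n, hn⟩ := rigid hc (by exact_mod_cast hpos.ne') h1 0 (by
    rw [Complex.norm_real, Real.norm_eq_abs, abs_of_pos hpos]; simp [e_zero])
  have h3 := abs_X_sub (r := r) hr.le x
  have h4 := abs_X_sub (r := -r) (by rw [abs_neg]; exact hr.le) (X r x)
  rw [abs_neg] at h4
  have h5 := hn x
  have h6 : |(n : ℝ)| < 1 := by
    have : (n : ℝ) = (X (-r) (X r x) - X r x) + (X r x - x) := by rw [h5]; ring
    rw [this]
    refine (abs_add_le _ _).trans_lt ?_
    linarith
  have h7 : n = 0 := by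
    have : |n| < 1 := by exact_mod_cast h6
    exact Int.abs_lt_one_iff.1 this
  rw [h5, h7]; simp

lemma X_X_neg {r : ℝ} (hr : |r| < 1 / 2) (x : ℝ) : X r (X (-r) x) = x := by
  have := X_neg_X (r := -r) (by rw [abs_neg]; exact hr) x
  rwa [neg_neg] at this

end Pool.Agent.Helper39.Rot
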