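import Pool.Agent.Helper39.Rot.Mob

set_option autoImplicit false

namespace Pool.Agent.Helper39.Rot

open Complex ComplexConjugate

lemma Mob_U {r : ℝ} (hr : |r| < 1) (β : ℝ) :
    Mob (fun x => X r (X (-r) x + β) + β) (e β - r ^ 2) (r * (1 - e β)) := by
  have hr2 : |-r| < 1 := by rw [abs_neg]; exact hr
  have h1 := (Mob_T β).comp ((Mob_X hr).comp ((Mob_T β).comp (Mob_X hr2)))
  have h2 : e (β / 2) * e (β / 2) = e β := by rw [← e_add]; congr 1; ring
  have h3 : e (β / 2) * conj (e (β / 2)) = 1 := e_mul_conj _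
  convert h1 using 1
  · simp only [mul_one, map_mul, map_neg, Complex.conj_ofReal, Complex.ofReal_neg, map_add, map_one,
      zero_mul, add_zero, one_mul]
    linear_combination (-1 : ℂ) * h2 + (r : ℂ) ^ 2 * h3
  · simp only [mul_one, map_mul, map_neg, Complex.conj_ofReal, Complex.ofReal_neg, map_add, map_one,
      zero_mul, add_zero, one_mul]
    linear_combination (r : ℂ) * h2 - (r : ℂ) * h3

lemma Mob_id : Mob (fun x => x) 1 0 := by
  intro x; simp

lemma Mob_iterate {r β : ℝ} (hr : |r| < 1) {A σ lam : ℝ}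
    (hσ : 0 < σ)
    (hcos : lam * Real.cos A = Real.cos (2 * Real.pi * β) - r ^ 2)
    (hsin : lam * Real.sin A = σ)
    (hσ2 : σ ^ 2 = (1 - Real.cos (2 * Real.pi * β)) * (1 + Real.cos (2 * Real.pi * β) - 2 * r ^ 2))
    (N : ℕ) :
    Mob ((fun x => X r (X (-r) x + β) + β)^[N])
      ((lam : ℂ) ^ N * (Real.cos (N * A) + Complex.I * (Real.sin (2 * Real.pi * β) / σ) * Real.sin (N * A)))
      ((lam : ℂ) ^ N * (Real.sin (N * A) * (r * (1 - e β) / σ))) := by
  have heβ : e β = Real.cos (2 * Real.pi * β) + Complex.I * Real.sin (2 * Real.pi * β) := by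
    unfold e
    have : (2 * (Real.pi : ℂ) * β * Complex.I) = ((2 * Real.pi * β : ℝ) : ℂ) * Complex.I := by
      push_cast; ring
    rw [this, Complex.exp_mul_I, ← Complex.ofReal_cos, ← Complex.ofReal_sin]
    ring
  set c : ℝ := Real.cos (2 * Real.pi * β) with hc
  set S : ℝ := Real.sin (2 * Real.pi * β) with hS
  have hS2 : S ^ 2 = 1 - c ^ 2 := by
    have := Real.sin_sq_add_cos_sq (2 * Real.pi * β)
    rw [← hc, ← hS] at this; linarith
  have hσ0 : (σ : ℂ) ≠ 0 := by exact_mod_cast hσ.ne'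
  have hceβ : conj (e β) = c - Complex.I * S := by
    rw [heβ]; simp; ring
  obtain ⟨b0, hb0⟩ : ∃ b0 : ℂ, b0 = (r : ℂ) * (1 - e β) / σ := ⟨_, rfl⟩
  rw [← hb0]
  induction N with
  | zero =>
    simp only [Function.iterate_zero, pow_zero, one_mul, Nat.cast_zero, zero_mul, Real.cos_zero,
      Real.sin_zero, Complex.ofReal_zero, mul_zero, add_zero, Complex.ofReal_one]
    exact Mob_id
  | succ n ih =>
    have h1 := ih.comp (Mob_U hr β)
    have h2 : (fun x => (fun x => X r (X (-r) x + β) + β)^[n] ((fun x => X r (X (-r) x + β) + β) x)) =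
        (fun x => X r (X (-r) x + β) + β)^[n + 1] := by
      funext x; rw [Function.iterate_succ_apply]
    rw [h2] at h1
    have e1 : (e β - (r : ℂ) ^ 2) = lam * (Real.cos A + Complex.I * (S / σ) * Real.sin A) := by
      rw [heβ]
      have h3 : ((lam : ℂ)) * Real.cos A = c - (r : ℂ) ^ 2 := by exact_mod_cast hcos
      have h4 : ((lam : ℂ)) * Real.sin A = σ := by exact_mod_cast hsin
      have h5 : (lam : ℂ) * (Real.cos A + Complex.I * (S / σ) * Real.sin A)
        = lam * Real.cos A + Complex.I * (S / σ) * (lam * Real.sin A) := by ring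
      rw [h5, h3, h4]; field_simp; ring
    have e2 : ((r : ℂ) * (1 - e β)) = lam * (Real.sin A * b0) := by
      have h4 : ((lam : ℂ)) * Real.sin A = σ := by exact_mod_cast hsin
      rw [← mul_assoc, h4, hb0]; field_simp
    have hcos' : Real.cos ((n + 1 : ℕ) * A) = Real.cos (n * A) * Real.cos A - Real.sin (n * A) * Real.sin A := by
      rw [← Real.cos_add]; congr 1; push_cast; ring
    have hsin' : Real.sin ((n + 1 : ℕ) * A) = Real.sin (n * A) * Real.cos A + Real.cos (n * A) * Real.sin A := by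
      rw [← Real.sin_add]; congr 1; push_cast; ring
    -- the key relation : |b0|^2 - α0^2 = -1
    have key : b0 * conj b0 - ((S : ℂ) / σ) ^ 2 = -1 := by
      rw [hb0]
      simp only [map_div₀, map_mul, Complex.conj_ofReal, map_sub, map_one]
      rw [hceβ, heβ]
      field_simp
      have h6 : (σ : ℂ) ^ 2 = (1 - c) * (1 + c - 2 * (r : ℂ) ^ 2) := by exact_mod_cast hσ2
      have h7 : (S : ℂ) ^ 2 = 1 - (c : ℂ) ^ 2 := by exact_mod_cast hS2
      have hI : Complex.I ^ 2 = -1 := Complex.I_sq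
      linear_combination h6 + ((r : ℂ) ^ 2 - 1) * h7 - (r : ℂ) ^ 2 * (S : ℂ) ^ 2 * hI
    rw [hcos', hsin']
    convert h1 using 1
    · rw [e1]
      have h8 : conj ((r : ℂ) * (1 - e β)) = lam * (Real.sin A * conj b0) := by
        rw [e2]
        simp only [map_mul, Complex.conj_ofReal]
      rw [h8]
      push_cast
      have hI : Complex.I ^ 2 = -1 := Complex.I_sq
      linear_combination (-(lam : ℂ) ^ (n + 1) * Complex.sin (n * A) * Complex.sin A) * key
        + (-(lam : ℂ) ^ (n + 1) * (S / σ) ^ 2 * Complex.sin (n * A) * Complex.sin A) * hI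
    · have h9 : conj (e β - (r : ℂ) ^ 2) = lam * (Real.cos A - Complex.I * (S / σ) * Real.sin A) := by
        rw [e1]
        simp only [map_mul, map_add, Complex.conj_ofReal, Complex.conj_I, map_div₀]
        ring
      rw [h9, e2]
      push_cast
      ring

/-- The Moebius power identity: `(T_β X_r T_β X_{-r})^N = X_r T_s` for arbitrarily small `r`. -/
theorem power_identity (β : ℝ) (h0 : 0 < β) (h1 : β < 1 / 2) (δ : ℝ) (hδ : 0 < δ) :
    ∃ r : ℝ, 0 < r ∧ r < δ ∧ ∃ N : ℕ, 0 < N ∧ ∃ s : ℝ, ∀ x,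
      ((fun x => X r (X (-r) x + β) + β)^[N]) x = X r (x + s) := by
  have hpi := Real.pi_pos
  obtain ⟨c, hc⟩ : ∃ c, c = Real.cos (2 * Real.pi * β) := ⟨_, rfl⟩
  obtain ⟨S, hS⟩ : ∃ S, S = Real.sin (2 * Real.pi * β) := ⟨_, rfl⟩
  have hSpos : 0 < S := by
    rw [hS]; apply Real.sin_pos_of_pos_of_lt_pi
    · positivity
    · nlinarith
  have hcS : S ^ 2 + c ^ 2 = 1 := by rw [hS, hc]; exact Real.sin_sq_add_cos_sq _
  have hc1 : c < 1 := by nlinarith
  have hc2 : -1 < c := by nlinarith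
  -- choose r2
  obtain ⟨r2, hr2pos, hr2δ, hr2half, hr2c⟩ : ∃ r2 : ℝ, 0 < r2 ∧ r2 < δ ∧ r2 < 1 / 2 ∧
      2 * r2 ^ 2 < 1 + c := by
    refine ⟨min (δ / 2) (min (1 / 4) ((1 + c) / 4)), ?_, ?_, ?_, ?_⟩
    · have : 0 < (1 + c) / 4 := by linarith
      positivity
    · exact (min_le_left _ _).trans_lt (by linarith)
    · exact ((min_le_right _ _).trans (min_le_left _ _)).trans_lt (by norm_num)
    · set m := min (δ / 2) (min (1 / 4) ((1 + c) / 4)) with hm
      have hm1 : m ≤ 1 / 4 := (min_le_right _ _).trans (min_le_left _ _)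
      have hm2 : m ≤ (1 + c) / 4 := (min_le_right _ _).trans (min_le_right _ _)
      have hm0 : 0 < m := by
        have : 0 < (1 + c) / 4 := by linarith
        positivity
      nlinarith
  set r1 : ℝ := r2 / 2 with hr1
  have hr1pos : 0 < r1 := by positivity
  have hr12 : r1 < r2 := by rw [hr1]; linarith
  -- the function
  set A : ℝ → ℝ := fun r => Real.arccos ((c - r ^ 2) / (1 - r ^ 2)) with hA
  set σ : ℝ → ℝ := fun r => Real.sqrt ((1 - c) * (1 + c - 2 * r ^ 2)) with hσ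
  have hrange : ∀ r ∈ Set.Icc r1 r2, 0 < r ∧ r < 1 / 2 ∧ 0 < 1 - r ^ 2 ∧ 0 < 1 + c - 2 * r ^ 2 := by
    intro r hr
    have ha : 0 < r := hr1pos.trans_le hr.1
    have hb : r < 1 / 2 := hr.2.trans_lt hr2half
    refine ⟨ha, hb, by nlinarith, ?_⟩
    have : r ^ 2 ≤ r2 ^ 2 := pow_le_pow_left₀ ha.le hr.2 2
    linarith
  have hquot : ∀ r ∈ Set.Icc r1 r2, -1 < (c - r ^ 2) / (1 - r ^ 2) ∧ (c - r ^ 2) / (1 - r ^ 2) < 1 := by
    intro r hr
    obtain ⟨ha, hb, hl, hq⟩ := hrange r hr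
    constructor
    · rw [lt_div_iff₀ hl]; linarith
    · rw [div_lt_one hl]; linarith
  have hcA : ContinuousOn A (Set.Icc r1 r2) := by
    apply Real.continuous_arccos.comp_continuousOn
    apply ContinuousOn.div
    · fun_prop
    · fun_prop
    · intro r hr; exact (hrange r hr).2.2.1.ne'
  have hσpos : ∀ r ∈ Set.Icc r1 r2, 0 < σ r := by
    intro r hr
    obtain ⟨ha, hb, hl, hq⟩ := hrange r hr
    apply Real.sqrt_pos.2
    have : 0 < 1 - c := by linarith
    positivity
  have hcσ : ContinuousOn σ (Set.Icc r1 r2) := by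
    apply Real.continuous_sqrt.comp_continuousOn
    fun_prop
  have hcosA : ∀ r ∈ Set.Icc r1 r2, (1 - r ^ 2) * Real.cos (A r) = c - r ^ 2 := by
    intro r hr
    have h := hquot r hr
    obtain ⟨ha, hb, hl, hq⟩ := hrange r hr
    simp only [hA]
    rw [Real.cos_arccos h.1.le h.2.le]
    field_simp
  have hσsq : ∀ r ∈ Set.Icc r1 r2, σ r ^ 2 = (1 - c) * (1 + c - 2 * r ^ 2) := by
    intro r hr
    obtain ⟨ha, hb, hl, hq⟩ := hrange r hr
    have : 0 < 1 - c := by linarith
    exact Real.sq_sqrt (by positivity)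
  have hsinA : ∀ r ∈ Set.Icc r1 r2, (1 - r ^ 2) * Real.sin (A r) = σ r := by
    intro r hr
    have h := hquot r hr
    obtain ⟨ha, hb, hl, hq⟩ := hrange r hr
    have hs0 : 0 ≤ Real.sin (A r) := Real.sin_nonneg_of_nonneg_of_le_pi (Real.arccos_nonneg _) (Real.arccos_le_pi _)
    have h1 : ((1 - r ^ 2) * Real.sin (A r)) ^ 2 = σ r ^ 2 := by
      rw [hσsq r hr, mul_pow]
      have h2 := hcosA r hr
      have h3 := Real.sin_sq_add_cos_sq (A r)
      have h4 : (1 - r ^ 2) ^ 2 * Real.sin (A r) ^ 2 = (1 - r ^ 2) ^ 2 - ((1 - r ^ 2) * Real.cos (A r)) ^ 2 := by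
        have : Real.sin (A r) ^ 2 = 1 - Real.cos (A r) ^ 2 := by linarith
        rw [this]; ring
      rw [h4, h2]; ring
    exact (pow_left_inj₀ (by positivity) (hσpos r hr).le (by norm_num)).1 h1
  -- strict monotonicity at the end points
  have hmemL : r1 ∈ Set.Icc r1 r2 := ⟨le_rfl, hr12.le⟩
  have hmemR : r2 ∈ Set.Icc r1 r2 := ⟨hr12.le, le_rfl⟩
  have hAlt : A r1 < A r2 := by
    simp only [hA]
    have hl := hquot r1 hmemL
    have hr := hquot r2 hmemR
    apply Real.strictAntiOn_arccos ⟨hr.1.le, hr.2.le⟩ ⟨hl.1.le, hl.2.le⟩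
    have e1 := (hrange r1 hmemL).2.2.1
    have e2 := (hrange r2 hmemR).2.2.1
    rw [div_lt_div_iff₀ e2 e1]
    have : r1 ^ 2 < r2 ^ 2 := pow_lt_pow_left₀ hr12 hr1pos.le (by norm_num)
    nlinarith
  -- choose N
  obtain ⟨N, hN⟩ : ∃ N : ℕ, 4 * Real.pi / (A r2 - A r1) < N := exists_nat_gt _
  have hd : 0 < A r2 - A r1 := by linarith
  have hNpos : 0 < N := by
    have : (0 : ℝ) < N := lt_of_le_of_lt (by positivity) hN
    exact_mod_cast this
  have hN2 : 4 * Real.pi < N * A r2 - N * A r1 := by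
    rw [div_lt_iff₀ hd] at hN
    linarith
  set j : ℤ := ⌈N * A r1 / (2 * Real.pi)⌉ with hj
  have hj1 : N * A r1 ≤ 2 * Real.pi * j := by
    have := Int.le_ceil (N * A r1 / (2 * Real.pi))
    rw [div_le_iff₀ (by positivity)] at this
    linarith
  have hj2 : 2 * Real.pi * j < N * A r1 + 2 * Real.pi := by
    have := Int.ceil_lt_add_one (N * A r1 / (2 * Real.pi))
    rw [← hj, ← sub_lt_iff_lt_add, lt_div_iff₀ (by positivity)] at this
    linarith
  have hcNA : ContinuousOn (fun r => (N : ℝ) * A r) (Set.Icc r1 r2) := continuousOn_const.mul hcA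
  have hpre : IsPreconnected (Set.Icc r1 r2) := isPreconnected_Icc
  have him := hpre.intermediate_value hmemL hmemR hcNA
  obtain ⟨ra, hra, hra'⟩ := him (⟨hj1, by linarith⟩ : 2 * Real.pi * j ∈ Set.Icc ((N : ℝ) * A r1) (N * A r2))
  obtain ⟨rb, hrb, hrb'⟩ := him (⟨by linarith, by linarith⟩ :
    2 * Real.pi * j + Real.pi ∈ Set.Icc ((N : ℝ) * A r1) (N * A r2))
  have hΦc : ContinuousOn (fun r => Real.cos (N * A r) - (1 - c) / σ r * Real.sin (N * A r)) (Set.Icc r1 r2) := by
    apply ContinuousOn.sub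
    · exact Real.continuous_cos.comp_continuousOn hcNA
    · apply ContinuousOn.mul
      · exact continuousOn_const.div hcσ (fun r hr => (hσpos r hr).ne')
      · exact Real.continuous_sin.comp_continuousOn hcNA
  have hcosa : Real.cos (N * A ra) = 1 := by
    simp only at hra'
    rw [hra', Real.cos_eq_one_iff]
    exact ⟨j, by ring⟩
  have hsina : Real.sin (N * A ra) = 0 := by
    have := Real.sin_sq_add_cos_sq (N * A ra)
    rw [hcosa] at this
    nlinarith
  have hcosb : Real.cos (N * A rb) = -1 := by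
    simp only at hrb'
    rw [hrb', Real.cos_add_pi]
    have : Real.cos (2 * Real.pi * j) = 1 := by
      rw [Real.cos_eq_one_iff]; exact ⟨j, by ring⟩
    rw [this]
  have hsinb : Real.sin (N * A rb) = 0 := by
    have := Real.sin_sq_add_cos_sq (N * A rb)
    rw [hcosb] at this
    nlinarith
  have him2 := hpre.intermediate_value hrb hra hΦc
  obtain ⟨r, hr, hr'⟩ := him2 (⟨by simp only [hcosb, hsinb]; norm_num, by simp only [hcosa, hsina]; norm_num⟩ :
    (0 : ℝ) ∈ Set.Icc (Real.cos (N * A rb) - (1 - c) / σ rb * Real.sin (N * A rb))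
      (Real.cos (N * A ra) - (1 - c) / σ ra * Real.sin (N * A ra)))
  simp only at hr'
  obtain ⟨ha, hb, hl, hq⟩ := hrange r hr
  have habs : |r| < 1 := by rw [abs_of_pos ha]; linarith
  have hmob := Mob_iterate (r := r) (β := β) habs (hσpos r hr) (by rw [← hc]; exact hcosA r hr)
    (hsinA r hr) (by rw [← hc]; exact hσsq r hr) N
  rw [← hS] at hmob
  -- compose with X (-r)
  have habs' : |-r| < 1 := by rw [abs_neg]; exact habs
  have hcomp := (Mob_X habs').comp hmob
  have hσ0 : (σ r : ℂ) ≠ 0 := by exact_mod_cast (hσpos r hr).ne'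
  have heβ : e β = c + Complex.I * S := by
    rw [hc, hS]
    unfold e
    have : (2 * (Real.pi : ℂ) * β * Complex.I) = ((2 * Real.pi * β : ℝ) : ℂ) * Complex.I := by
      push_cast; ring
    rw [this, Complex.exp_mul_I, ← Complex.ofReal_cos, ← Complex.ofReal_sin]
    ring
  set Cn : ℝ := Real.cos (N * A r) with hCn
  set Sn : ℝ := Real.sin (N * A r) with hSn
  have hCS : Sn ^ 2 + Cn ^ 2 = 1 := Real.sin_sq_add_cos_sq _
  obtain ⟨W, hW⟩ : ∃ W : ℂ, W = ((1 - r ^ 2 : ℝ) : ℂ) ^ N * (Cn + Complex.I * (S / σ r) * Sn) := ⟨_, rfl⟩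
  have hrel : (Cn : ℂ) = (1 - c) / σ r * Sn := by
    have : Cn = (1 - c) / σ r * Sn := by linarith
    exact_mod_cast this
  have hWconj : conj W = ((1 - r ^ 2 : ℝ) : ℂ) ^ N * (Cn - Complex.I * (S / σ r) * Sn) := by
    rw [hW]
    simp only [map_mul, map_pow, Complex.conj_ofReal, map_add, map_div₀, Complex.conj_I]
    ring
  have hB : ((1 - r ^ 2 : ℝ) : ℂ) ^ N * (Sn * ((r : ℂ) * (1 - e β) / σ r)) = r * conj W := by
    rw [hWconj, heβ, hrel]
    ring
  have hzero : (1 : ℂ) * (((1 - r ^ 2 : ℝ) : ℂ) ^ N * (Sn * ((r : ℂ) * (1 - e β) / σ r))) +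
      ((-r : ℝ) : ℂ) * conj (((1 - r ^ 2 : ℝ) : ℂ) ^ N * (Cn + Complex.I * (S / σ r) * Sn)) = 0 := by
    rw [hB, ← hW]; push_cast; ring
  rw [hzero] at hcomp
  have hWne : W ≠ 0 := by
    rw [hW]
    have h5 : ((1 - r ^ 2 : ℝ) : ℂ) ≠ 0 := by exact_mod_cast hl.ne'
    apply mul_ne_zero (pow_ne_zero _ h5)
    intro h6
    have h7 : (Cn : ℂ) + Complex.I * (S / σ r) * Sn = ((Cn : ℝ) : ℂ) + ((S / σ r * Sn : ℝ) : ℂ) * Complex.I := by
      push_cast; ring
    rw [h7] at h6
    have h8 := congrArg Complex.re h6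
    have h9 := congrArg Complex.im h6
    simp at h8 h9
    have h10 : Sn = 0 := by
      rcases h9 with (h9 | h9) | h9
      · exact absurd h9 hSpos.ne'
      · exact absurd h9 (hσpos r hr).ne'
      · exact h9
    rw [h8, h10] at hCS
    norm_num at hCS
  have hfirst : (1 : ℂ) * (((1 - r ^ 2 : ℝ) : ℂ) ^ N * (Cn + Complex.I * (S / σ r) * Sn)) +
      ((-r : ℝ) : ℂ) * conj (((1 - r ^ 2 : ℝ) : ℂ) ^ N * (Sn * ((r : ℂ) * (1 - e β) / σ r))) ≠ 0 := by
    rw [hB, ← hW]
    have : (1 : ℂ) * W + ((-r : ℝ) : ℂ) * conj ((r : ℂ) * conj W) = ((1 - r ^ 2 : ℝ) : ℂ) * W := by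
      simp only [map_mul, Complex.conj_ofReal, Complex.conj_conj]; push_cast; ring
    rw [this]
    exact mul_ne_zero (by exact_mod_cast hl.ne') hWne
  have hcU : Continuous (fun x => X r (X (-r) x + β) + β) := by
    have h1 := continuous_X habs
    have h2 := continuous_X habs'
    fun_prop
  have hcF : Continuous (fun x => X (-r) ((fun x => X r (X (-r) x + β) + β)^[N] x)) :=
    (continuous_X habs').comp (hcU.iterate N)
  obtain ⟨s, hs⟩ := rigid' hcF hfirst hcomp
  refine ⟨r, ha, hr.2.trans_lt hr2δ, N, hNpos, s, fun x => ?_⟩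
  rw [← hs x, X_X_neg (by rw [abs_of_pos ha]; exact hb)]

end Pool.Agent.Helper39.Rot
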