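import Pool.Agent.Helper39.Rot.Group

set_option autoImplicit false

namespace Pool.Agent.Helper39.Rot

open Equiv

/-- statement of the closing lemma (module B) -/
def Closing : Prop := ∀ (r : ℝ) (_ : 0 < r) (_ : r < 1 / 4),
    ∃ ε : ℝ, 0 < ε ∧ ∀ c : ℝ, |c| ≤ ε → ∃ a b : ℝ, ∀ x,
      X r (X (-r) (X r (X (-r) (x - 2 * a - b) + a) + b) + a) = x + c

lemma closing_perm (hcl : Closing) {r : ℝ} (h0 : 0 < r) (h1 : r < 1 / 4) :
    ∃ ε : ℝ, 0 < ε ∧ ∀ c : ℝ, |c| ≤ ε → ∀ s : ℝ, ∃ t1 t2 t3 : ℝ,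
      gg r s 0 * (gg r s t1)⁻¹ * gg r s t2 * (gg r s t3)⁻¹ = T c := by
  obtain ⟨ε, hε, h⟩ := hcl r h0 h1
  refine ⟨ε, hε, fun c hc s => ?_⟩
  obtain ⟨a, b, hab⟩ := h c hc
  have hr : |r| < 1 / 2 := by rw [abs_of_pos h0]; linarith
  refine ⟨a, a + b, 2 * a + b, ?_⟩
  have e1 : gg r s 0 * (gg r s a)⁻¹ * gg r s (a + b) * (gg r s (2 * a + b))⁻¹ =
      XP r * T a * (XP r)⁻¹ * T b * XP r * T a * (XP r)⁻¹ * T (-(2 * a + b)) := by
    unfold gg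
    have h2 : T (s - 0) * (T (s - a))⁻¹ = T a := by rw [T_inv, T_mul]; congr 1; ring
    have h3 : (T a)⁻¹ * T (a + b) = T b := by rw [T_inv, T_mul]; congr 1; ring
    have h4 : T (s - (a + b)) * (T (s - (2 * a + b)))⁻¹ = T a := by rw [T_inv, T_mul]; congr 1; ring
    have h5 : (T (2 * a + b))⁻¹ = T (-(2 * a + b)) := T_inv _
    calc T 0 * XP r * T (s - 0) * (T a * XP r * T (s - a))⁻¹ * (T (a + b) * XP r * T (s - (a + b))) *
        (T (2 * a + b) * XP r * T (s - (2 * a + b)))⁻¹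
        = T 0 * XP r * (T (s - 0) * (T (s - a))⁻¹) * (XP r)⁻¹ * ((T a)⁻¹ * T (a + b)) * XP r *
          (T (s - (a + b)) * (T (s - (2 * a + b)))⁻¹) * (XP r)⁻¹ * (T (2 * a + b))⁻¹ := by group
      _ = _ := by rw [h2, h3, h4, h5, T_zero, one_mul]
  rw [e1]
  ext x
  simp only [Perm.mul_apply, T_apply, XP_apply hr, XP_inv_apply hr]
  have := hab x
  have e2 : x + -(2 * a + b) = x - 2 * a - b := by ring
  rw [e2]; exact this

structure St where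
  q : ℕ+
  m : ℕ+
  a : ℝ
  e : ℕ
  l : ℕ

structure Dt where
  r : ℝ
  N : ℕ
  s : ℝ
  θ : ℕ → ℝ
  m' : ℕ+
  n : ℕ
  p : ℤ

def LL (st : St) (dt : Dt) : ℕ := dt.N * (2 * st.l + 2 * st.e + 2)

def Good (α : ℝ) (k : ℕ) (st : St) (dt : Dt) : Prop :=
  0 < dt.r ∧ dt.r < 1 / 4 ∧ dt.r * Real.exp (4 * Real.pi * ((st.q : ℕ) : ℝ)) ≤ (1 / 2 : ℝ) ^ (k + 5) ∧
  0 < dt.N ∧
  (T (1 / ((st.m : ℕ) : ℝ)) * XP dt.r * T (1 / ((st.m : ℕ) : ℝ)) * (XP dt.r)⁻¹) ^ dt.N = XP dt.r * T dt.s ∧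
  gg dt.r dt.s (dt.θ 0) * (gg dt.r dt.s (dt.θ 1))⁻¹ * gg dt.r dt.s (dt.θ 2) * (gg dt.r dt.s (dt.θ 3))⁻¹ =
    T (1 / (((st.m : ℕ) : ℝ) * ((dt.m' : ℕ) : ℝ))) ∧
  gg dt.r dt.s (dt.θ 4) * (gg dt.r dt.s (dt.θ 5))⁻¹ * gg dt.r dt.s (dt.θ 6) * (gg dt.r dt.s (dt.θ 7))⁻¹ =
    T (((st.q : ℕ) : ℝ) * (dt.n * α - dt.p)) ∧
  3 ≤ (dt.m' : ℕ) ∧ 0 < dt.n ∧ (k + 1) * (4 * LL st dt) ≤ dt.n

noncomputable def nxt (st : St) (dt : Dt) : St :=
  ⟨st.q * st.m, dt.m', st.a + dt.s / ((st.q : ℕ) : ℝ), st.e + LL st dt, 4 * LL st dt⟩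

lemma iterate_perm {r : ℝ} (hr : |r| < 1 / 2) (β : ℝ) (N : ℕ) (x : ℝ) :
    ((T β * XP r * T β * (XP r)⁻¹) ^ N) x = ((fun x => X r (X (-r) x + β) + β)^[N]) x := by
  induction N generalizing x with
  | zero => simp
  | succ n ih =>
    rw [pow_succ, Perm.mul_apply, ih, Function.iterate_succ_apply]
    congr 1
    simp only [Perm.mul_apply, T_apply, XP_apply hr, XP_inv_apply hr]

lemma step (hcl : Closing) (α : ℝ) (k : ℕ) (st : St) (hm : 3 ≤ (st.m : ℕ)) :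
    ∃ dt, Good α k st dt := by
  have hm' : (3 : ℝ) ≤ ((st.m : ℕ) : ℝ) := by exact_mod_cast hm
  have hq : (0 : ℝ) < ((st.q : ℕ) : ℝ) := by positivity
  set δ : ℝ := min (1 / 4) ((1 / 2 : ℝ) ^ (k + 5) * Real.exp (-(4 * Real.pi * ((st.q : ℕ) : ℝ)))) with hδ
  have hδpos : 0 < δ := by positivity
  obtain ⟨r, hr0, hrδ, N, hN, s, hs⟩ := power_identity (1 / ((st.m : ℕ) : ℝ)) (by positivity)
    (by rw [div_lt_div_iff₀ (by positivity) (by norm_num)]; linarith) δ hδpos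
  have hr4 : r < 1 / 4 := hrδ.trans_le (min_le_left _ _)
  have hrabs : |r| < 1 / 2 := by rw [abs_of_pos hr0]; linarith
  have hrexp : r * Real.exp (4 * Real.pi * ((st.q : ℕ) : ℝ)) ≤ (1 / 2 : ℝ) ^ (k + 5) := by
    have h1 : r ≤ (1 / 2 : ℝ) ^ (k + 5) * Real.exp (-(4 * Real.pi * ((st.q : ℕ) : ℝ))) :=
      hrδ.le.trans (min_le_right _ _)
    calc r * Real.exp (4 * Real.pi * ((st.q : ℕ) : ℝ))
        ≤ ((1 / 2 : ℝ) ^ (k + 5) * Real.exp (-(4 * Real.pi * ((st.q : ℕ) : ℝ)))) *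
          Real.exp (4 * Real.pi * ((st.q : ℕ) : ℝ)) := by gcongr
      _ = (1 / 2 : ℝ) ^ (k + 5) := by rw [mul_assoc, ← Real.exp_add]; simp
  obtain ⟨ε, hε, hc⟩ := closing_perm hcl hr0 hr4
  -- m'
  obtain ⟨M0, hM0⟩ : ∃ M0 : ℕ, 1 / ε < M0 := exists_nat_gt _
  set m' : ℕ+ := ⟨M0 + 3, by omega⟩ with hm'def
  have hm'3 : 3 ≤ (m' : ℕ) := by rw [hm'def]; simp
  have hc1 : |1 / (((st.m : ℕ) : ℝ) * ((m' : ℕ) : ℝ))| ≤ ε := by
    rw [abs_of_pos (by positivity)]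
    have h1 : ((m' : ℕ) : ℝ) = M0 + 3 := by
      have h0 : (m' : ℕ) = M0 + 3 := rfl
      rw [h0]; push_cast; ring
    have h2 : 1 / ε < ((m' : ℕ) : ℝ) := by rw [h1]; linarith
    rw [div_lt_iff₀ hε] at h2
    rw [div_le_iff₀ (by positivity)]
    have h3 : (0 : ℝ) < ((m' : ℕ) : ℝ) := by positivity
    nlinarith [mul_pos hε h3]
  obtain ⟨t1, t2, t3, h123⟩ := hc _ hc1 s
  -- n
  set L : ℕ := N * (2 * st.l + 2 * st.e + 2) with hL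
  set n0 : ℕ := (k + 1) * (4 * L) + 1 with hn0
  have hη : 0 < ε / (((st.q : ℕ) : ℝ) * n0) := by
    have : (0 : ℝ) < n0 := by rw [hn0]; positivity
    positivity
  obtain ⟨M1, hM1⟩ : ∃ M1 : ℕ, 1 / (ε / (((st.q : ℕ) : ℝ) * n0)) < M1 := exists_nat_gt _
  obtain ⟨k0, hk0, -, hk0'⟩ := Real.exists_nat_abs_mul_sub_round_le α (n := M1 + 1) (by omega)
  have hn0pos : (0 : ℝ) < n0 := by rw [hn0]; positivity
  have hc2 : |((st.q : ℕ) : ℝ) * (((n0 * k0 : ℕ) : ℝ) * α - ((n0 * round (k0 * α) : ℤ) : ℝ))| ≤ ε := by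
    have h1 : ((st.q : ℕ) : ℝ) * (((n0 * k0 : ℕ) : ℝ) * α - ((n0 * round (k0 * α) : ℤ) : ℝ)) =
        ((st.q : ℕ) : ℝ) * n0 * (k0 * α - round (k0 * α)) := by push_cast; ring
    rw [h1, abs_mul, abs_of_pos (by positivity)]
    have h2 : |(k0 : ℝ) * α - round (k0 * α)| ≤ ε / (((st.q : ℕ) : ℝ) * n0) := by
      refine hk0'.trans ?_
      rw [div_lt_iff₀ hη] at hM1
      rw [div_le_iff₀ (by positivity)]
      push_cast
      nlinarith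
    calc ((st.q : ℕ) : ℝ) * n0 * |(k0 : ℝ) * α - round (k0 * α)|
        ≤ ((st.q : ℕ) : ℝ) * n0 * (ε / (((st.q : ℕ) : ℝ) * n0)) := by gcongr
      _ = ε := by field_simp
  obtain ⟨t5, t6, t7, h567⟩ := hc _ hc2 s
  refine ⟨⟨r, N, s, fun i => if i = 1 then t1 else if i = 2 then t2 else if i = 3 then t3 else
    if i = 5 then t5 else if i = 6 then t6 else if i = 7 then t7 else 0, m', n0 * k0,
    n0 * round (k0 * α)⟩, hr0, hr4, hrexp, hN, ?_, ?_, ?_, hm'3, ?_, ?_⟩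
  · ext x
    rw [iterate_perm hrabs]
    simp only [Perm.mul_apply, T_apply, XP_apply hrabs]
    exact hs x
  · simpa using h123
  · simpa using h567
  · have : 0 < n0 := by omega
    positivity
  · show (k + 1) * (4 * LL st _) ≤ n0 * k0
    have h5 : LL st ⟨r, N, s, fun i => if i = 1 then t1 else if i = 2 then t2 else if i = 3 then t3 else
      if i = 5 then t5 else if i = 6 then t6 else if i = 7 then t7 else 0, m', n0 * k0,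
      n0 * round (k0 * α)⟩ = L := rfl
    rw [h5]
    calc (k + 1) * (4 * L) ≤ n0 := by omega
      _ = n0 * 1 := by ring
      _ ≤ n0 * k0 := Nat.mul_le_mul_left _ hk0

end Pool.Agent.Helper39.Rot
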